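import Pool.Agent.W_c0up_h14.BB
import Pool.Agent.W_c0up_h14.RA

/-!
# MP_c0ce05_co, Q2 (proofs row 518), section 9: the numerical conditions

`η` is the small constant (`del / 200`) which controls the error terms; the number of unclaimed
edges is at most `h L²` with `η ≤ h ≤ 1/200`.
-/

set_option autoImplicit false

namespace C0mc

open C0st

/-- the numerical conditions -/
structure Big (η M eps E0 : ℝ) (N r n0 n q Dl D0 : ℕ) : Prop where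
  e0 : 0 < η
  e1 : η ≤ 1 / 200
  N2 : 2 ≤ N
  r2 : 2 ≤ r
  n01 : 1 ≤ n0
  M16 : 16 ≤ M
  MN : M ^ r = N
  q1 : 1 ≤ q
  D0e : (1 + q * (2 + 2 * Dl)) ^ n ≤ D0
  x0 : 16 * ((q : ℝ) ^ 2 * (2 + 4 * Dl)) ≤ M ^ 2
  qL : (2 - η) * Real.logb 2 N ≤ q
  qU : (q : ℝ) ≤ 2 * Real.logb 2 N
  errP : q + 16 * (q : ℝ) ^ 2 / n0 + 16 * (eps * (q : ℝ) ^ 2) + E0 +
    (q : ℝ) ^ 2 / ((n / 2 + 1 : ℕ) : ℝ) ≤ 3 / 100 * η * Real.logb 2 N ^ 2
  errS : q * Real.log (q * M ^ (27 * n0) + 1) ≤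
    1 / 1000 * η * Real.logb 2 N ^ 2 * Real.log 2
  errN : 560 ≤ Real.logb 2 N
  errG : q * Real.log (q * M ^ (27 * n0) + 1) + q * Real.log (q * D0 + 1) + Real.log 16 ≤
    3 / 1000 * η * Real.logb 2 N ^ 2 * Real.log 2
  errT : r * errK M N r n0 r D0 Dl q ≤ 1 / 100 * η * Real.logb 2 N ^ 2 * Real.log 2
  big : 1 ≤ 1 / 1000 * η * Real.logb 2 N ^ 2

/-- the numerical conditions for the reduction of the family -/
structure Fam (η M eps E0 p : ℝ) (N q D1 T0 k0 np : ℕ) : Prop where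
  N2 : 2 ≤ N
  q1 : 1 ≤ q
  M1 : 1 < M
  p0 : 0 < p
  p1 : p ≤ 1
  D11 : 1 ≤ D1
  T01 : 1 ≤ T0
  exc : 3 * (q * xiB p q D1 T0 k0) + q * (Nat.sqrt q : ℝ) ≤ E0
  eps0 : 0 < eps
  pin1 : 2 ≤ eps * Real.log M
  pin2 : Real.log N < q * (eps / 4) * Real.log M
  pin3 : 4 * Real.log N ≤ np * (eps * Real.log M)
  cost : (3 * p * q + Nat.sqrt q) * Real.log ((N : ℝ) + 1) + np * Real.log N ≤
    4 / 1000 * η * Real.logb 2 N ^ 2 * Real.log 2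

end C0mc
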