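import Pool.Agent.W_c0up_h14.AS
import Pool.Agent.W_c0q2_h14.DefM

/-!
# MP_c0ce05_co, Q2 (proofs row 518), section 9: choice of the parameters

All error terms are increasing in `q`, and `q ≤ 2 L ≤ qf η N`, so the estimates of
`W_c0up_h14.AS` for `qf η N` are used.
-/

set_option autoImplicit false

namespace C0mc

open Filter C0st

theorem errK_mono {M : ℝ} (hM : 1 ≤ M) {N : ℕ} (hN : 1 ≤ N) (r n0 K D0 Dl : ℕ) {q q' : ℕ}
    (h : q ≤ q') : errK M N r n0 K D0 Dl q ≤ errK M N r n0 K D0 Dl q' := by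
  have hM0 : (0 : ℝ) < M := by linarith
  have hq : (q : ℝ) ≤ q' := by exact_mod_cast h
  have hq0 : (0 : ℝ) ≤ q := Nat.cast_nonneg _
  have hN' : (1 : ℝ) ≤ N := by exact_mod_cast hN
  have hD0 : (0 : ℝ) ≤ D0 := Nat.cast_nonneg _
  have hDl : (0 : ℝ) ≤ Dl := Nat.cast_nonneg _
  have hr : (0 : ℝ) ≤ r := Nat.cast_nonneg _
  have hq2 : (q : ℝ) ^ 2 ≤ (q' : ℝ) ^ 2 := pow_le_pow_left₀ hq0 hq 2
  have hlog : 0 ≤ Real.log (16 * ((r : ℝ) + 3)) + 11 * Real.log N := by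
    have h1 : 0 ≤ Real.log (16 * ((r : ℝ) + 3)) := Real.log_nonneg (by linarith)
    have h2 : 0 ≤ Real.log (N : ℝ) := Real.log_nonneg hN'
    linarith
  have e1 : 2 * (((D0 : ℝ) + 1) * ((r : ℝ) + 1) ^ 2 * (q : ℝ) ^ 2) *
      (Real.log (16 * ((r : ℝ) + 3)) + 11 * Real.log N) ≤
      2 * (((D0 : ℝ) + 1) * ((r : ℝ) + 1) ^ 2 * (q' : ℝ) ^ 2) *
      (Real.log (16 * ((r : ℝ) + 3)) + 11 * Real.log N) := by
    refine mul_le_mul_of_nonneg_right ?_ hlog
    refine mul_le_mul_of_nonneg_left ?_ (by norm_num)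
    exact mul_le_mul_of_nonneg_left hq2 (by positivity)
  have e2 : (Real.log (4 * n0 * K) + 2 * (((D0 : ℝ) + 1) * ((r : ℝ) + 1) ^ 2 * (q : ℝ) ^ 2) *
      (Real.log (16 * ((r : ℝ) + 3)) + 11 * Real.log N)) / M ^ 3 ≤
      (Real.log (4 * n0 * K) + 2 * (((D0 : ℝ) + 1) * ((r : ℝ) + 1) ^ 2 * (q' : ℝ) ^ 2) *
      (Real.log (16 * ((r : ℝ) + 3)) + 11 * Real.log N)) / M ^ 3 :=
    div_le_div_of_nonneg_right (by linarith) (by positivity)
  have e3 : (q : ℝ) * Real.log (q * D0 + 1) ≤ (q' : ℝ) * Real.log (q' * D0 + 1) := by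
    have h1 : (q : ℝ) * D0 ≤ q' * D0 := mul_le_mul_of_nonneg_right hq hD0
    have h2 : 0 ≤ (q : ℝ) * D0 := mul_nonneg hq0 hD0
    have h3 : Real.log ((q : ℝ) * D0 + 1) ≤ Real.log ((q' : ℝ) * D0 + 1) :=
      Real.log_le_log (by linarith) (by linarith)
    exact mul_le_mul hq h3 (Real.log_nonneg (by linarith)) (by linarith)
  have e4 : 2 ^ (K + 1) * (((Dl : ℝ) + 1) * (q : ℝ) ^ 2) / M ^ 4 ≤
      2 ^ (K + 1) * (((Dl : ℝ) + 1) * (q' : ℝ) ^ 2) / M ^ 4 := by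
    refine div_le_div_of_nonneg_right ?_ (by positivity)
    refine mul_le_mul_of_nonneg_left ?_ (by positivity)
    exact mul_le_mul_of_nonneg_left hq2 (by positivity)
  unfold errK
  linarith

theorem xiB_mono {p : ℝ} (h0 : 0 < p) (h1 : p ≤ 1) (D0 T0 k0 : ℕ) {q q' : ℕ} (h : q ≤ q') :
    xiB p q D0 T0 k0 ≤ xiB p q' D0 T0 k0 := by
  have hq : (q : ℝ) ≤ q' := by exact_mod_cast h
  have h2 : 0 ≤ (1 - p) ^ D0 := pow_nonneg (by linarith) _
  have h3 : 0 ≤ (1 - p) ^ k0 := pow_nonneg (by linarith) _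
  have e1 : (q : ℝ) * (2 * (1 - p) ^ D0) ≤ q' * (2 * (1 - p) ^ D0) :=
    mul_le_mul_of_nonneg_right hq (by linarith)
  have e2 : (q : ℝ) * ((p⁻¹ ^ 2 + 2 * D0 * p⁻¹) / T0) ≤ q' * ((p⁻¹ ^ 2 + 2 * D0 * p⁻¹) / T0) :=
    mul_le_mul_of_nonneg_right hq (by positivity)
  have e3 : (q : ℝ) * (1 - p) ^ k0 ≤ q' * (1 - p) ^ k0 := mul_le_mul_of_nonneg_right hq h3
  unfold xiB
  linarith

theorem xiB_nonneg {p : ℝ} (h0 : 0 < p) (h1 : p ≤ 1) (q D0 T0 k0 : ℕ) :
    0 ≤ xiB p q D0 T0 k0 := by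
  have h2 : 0 ≤ (1 - p) ^ D0 := pow_nonneg (by linarith) _
  have h3 : 0 ≤ (1 - p) ^ k0 := pow_nonneg (by linarith) _
  unfold xiB
  positivity

theorem exc_mono {p : ℝ} (h0 : 0 < p) (h1 : p ≤ 1) (D0 T0 k0 : ℕ) {q q' : ℕ} (h : q ≤ q') :
    3 * (q * xiB p q D0 T0 k0) + q * (Nat.sqrt q : ℝ) ≤
      3 * (q' * xiB p q' D0 T0 k0) + q' * (Nat.sqrt q' : ℝ) := by
  have hq : (q : ℝ) ≤ q' := by exact_mod_cast h
  have hq0 : (0 : ℝ) ≤ q' := Nat.cast_nonneg _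
  have hs : (Nat.sqrt q : ℝ) ≤ (Nat.sqrt q' : ℝ) := by exact_mod_cast Nat.sqrt_le_sqrt h
  have e1 : (q : ℝ) * xiB p q D0 T0 k0 ≤ q' * xiB p q' D0 T0 k0 :=
    mul_le_mul hq (xiB_mono h0 h1 D0 T0 k0 h) (xiB_nonneg h0 h1 q D0 T0 k0) hq0
  have e2 : (q : ℝ) * (Nat.sqrt q : ℝ) ≤ q' * (Nat.sqrt q' : ℝ) :=
    mul_le_mul hq hs (Nat.cast_nonneg _) hq0
  linarith

/-- `q log (q X + 1)` is increasing -/
theorem qlog_mono {X : ℝ} (hX : 0 ≤ X) {q q' : ℕ} (h : q ≤ q') :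
    (q : ℝ) * Real.log (q * X + 1) ≤ (q' : ℝ) * Real.log (q' * X + 1) := by
  have hq : (q : ℝ) ≤ q' := by exact_mod_cast h
  have hq0 : (0 : ℝ) ≤ q := Nat.cast_nonneg _
  have h1 : (q : ℝ) * X ≤ q' * X := mul_le_mul_of_nonneg_right hq hX
  have h2 : 0 ≤ (q : ℝ) * X := mul_nonneg hq0 hX
  have h3 : Real.log ((q : ℝ) * X + 1) ≤ Real.log ((q' : ℝ) * X + 1) :=
    Real.log_le_log (by linarith) (by linarith)
  exact mul_le_mul hq h3 (Real.log_nonneg (by linarith)) (by linarith)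

theorem AS_cost {η L q s l N1 P np : ℝ} (h0 : 0 < η) (h1 : η ≤ 1 / 200) (hL : 0 ≤ L) (hl : 0 < l)
    (hq : q ≤ 3 * L) (hN : N1 ≤ (L + 1) * l) (hP : P = η / 10 ^ 5)
    (hS : s * N1 ≤ 1 / 1000 * η * l * L ^ 2) (hs : (1 + np) * L + (1 + np) ≤ η / 1000 * L ^ 2)
    (hnp : 0 ≤ np) (hN0 : 0 ≤ N1) :
    (3 * P * q + s) * N1 + np * (L * l) ≤ 4 / 1000 * η * L ^ 2 * l := by
  have h2 : 3 * P * q ≤ 9 * η / 10 ^ 5 * L := by
    rw [hP]
    have := mul_le_mul_of_nonneg_left hq h0.le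
    nlinarith
  have h3 : 3 * P * q * N1 ≤ 9 * η / 10 ^ 5 * L * ((L + 1) * l) :=
    mul_le_mul h2 hN hN0 (by positivity)
  have h4 : ((1 + np) * L + (1 + np)) * l ≤ η / 1000 * L ^ 2 * l :=
    mul_le_mul_of_nonneg_right hs hl.le
  have h5 : 0 ≤ L * l := by positivity
  have h6 : 9 * η / 10 ^ 5 * (L * l) ≤ L * l := by
    have : 9 * η / 10 ^ 5 * (L * l) ≤ 1 * (L * l) :=
      mul_le_mul_of_nonneg_right (by linarith) (by positivity)
    linarith
  have h7 : 0 ≤ np * l := by positivity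
  have h8 : 0 ≤ η * L ^ 2 * l := by positivity
  nlinarith

/-- Choice of the parameters, for all `q` between `(2 - η) L` and `2 L`. -/
theorem exists_params {η : ℝ} (h0 : 0 < η) (h1 : η ≤ 1 / 200) :
    ∃ (r n0 n D1 T0 k0 np : ℕ) (p eps : ℝ), ∀ᶠ N : ℕ in atTop, ∀ q : ℕ,
      (2 - η) * Real.logb 2 N ≤ q → (q : ℝ) ≤ 2 * Real.logb 2 N →
      Big η (Mf r N) eps (η / 1000 * Real.logb 2 N ^ 2) N r n0 n q (Df N) (D0f η n N) ∧
      Fam η (Mf r N) eps (η / 1000 * Real.logb 2 N ^ 2) p N q D1 T0 k0 np := by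
  obtain ⟨D1, T0, k0, hD1, hT0, hexc⟩ := exc_small h0 h1
  set n0 : ℕ := ⌈30000 / η⌉₊ with hn0d
  set n : ℕ := 2 * ⌈2000 / η⌉₊ with hnd
  set eps : ℝ := η / 30000 with hepsd
  set r : ℕ := ⌈200000 * (n0 : ℝ) / η⌉₊ with hrd
  set np : ℕ := ⌈4 * (r : ℝ) / eps⌉₊ with hnpd
  have heps0 : 0 < eps := by positivity
  have hn0le : 30000 / η ≤ (n0 : ℝ) := Nat.le_ceil _
  have hn0pos : (1 : ℝ) ≤ n0 := by
    have : (1 : ℝ) ≤ 30000 / η := by
      rw [le_div_iff₀ h0]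
      linarith
    linarith
  have hn01 : 1 ≤ n0 := by exact_mod_cast hn0pos
  have hrle : 200000 * (n0 : ℝ) / η ≤ (r : ℝ) := Nat.le_ceil _
  have hrle' : 200000 * (n0 : ℝ) ≤ r * η := by
    rwa [div_le_iff₀ h0] at hrle
  have hr2' : (2 : ℝ) ≤ r := by
    have h2 : (200000 : ℝ) ≤ r * η := by nlinarith
    have hr0 : (0 : ℝ) ≤ r := Nat.cast_nonneg _
    nlinarith
  have hr2 : 2 ≤ r := by exact_mod_cast hr2'
  have hr1 : 1 ≤ r := by omega
  have hr0 : (0 : ℝ) < r := by linarith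
  have hnple : 4 * (r : ℝ) / eps ≤ (np : ℝ) := Nat.le_ceil _
  have hnple' : 4 * (r : ℝ) ≤ np * eps := by
    rwa [div_le_iff₀ heps0] at hnple
  have hn2 : 2000 / η ≤ ((n / 2 + 1 : ℕ) : ℝ) := by
    have : n / 2 = ⌈2000 / η⌉₊ := by omega
    rw [this]
    push_cast
    have := Nat.le_ceil (2000 / η)
    linarith
  have hlog2 : 0 < Real.log 2 := Real.log_pos (by norm_num)
  refine ⟨r, n0, n, D1, T0, k0, np, η / 10 ^ 5, eps, ?_⟩
  have hp0 : 0 < η / 10 ^ 5 := by positivity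
  have hp1 : η / 10 ^ 5 ≤ 1 := by
    rw [div_le_one (by norm_num)]
    linarith
  have hL1 : ∀ᶠ N : ℕ in atTop, 560 ≤ Real.logb 2 N := L_tendsto.eventually_ge_atTop 560
  have hLb : ∀ᶠ N : ℕ in atTop, 2 * r / (eps * Real.log 2) ≤ Real.logb 2 N :=
    L_tendsto.eventually_ge_atTop _
  have hLc : ∀ᶠ N : ℕ in atTop, 4 * r / eps < Real.logb 2 N :=
    L_tendsto.eventually_gt_atTop _
  have hη3 : 0 < η / 1000 := by positivity
  have hub : 81 * (n0 : ℝ) ≤ η / 1000 / 2 * r := by nlinarith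
  have hδ : 0 < 1 / 1000 * η * Real.log 2 := by positivity
  have hδ2 : 0 < 1 / 100 * η * Real.log 2 := by positivity
  filter_upwards [eventually_ge_atTop 2, hL1, hLb, hLc,
    Mf_large hr1 16 0, Mf_large hr1 6048 4, L_small 3 hη3, L_small 5 hη3,
    L_small (1 + (np : ℝ)) hη3, hub_small h0 h1 r n0 hr1 hη3 hub, deg_small h0 h1 n hδ,
    err_small h0 h1 r n0 n hr1 hn01 hδ2, hexc, sqrt_small2 h0 h1 hδ,
    L_small 1 (show 0 < 1 / 1000 * η by positivity)] with N hN2 hL1 hLb hLc hM16 hMx hs3 hs5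
    hsnp hhub hdeg herr hexc hsq hs1
  intro q hqL hqU
  have hN1 : 1 ≤ N := by omega
  have hNR : (2 : ℝ) ≤ N := by exact_mod_cast hN2
  set L := Real.logb 2 N with hLd
  have hL0 : 0 ≤ L := by linarith
  have hq0 : (0 : ℝ) ≤ (q : ℝ) := Nat.cast_nonneg _
  have hq3 : (q : ℝ) ≤ 3 * L := by linarith
  have hqge : L ≤ (q : ℝ) := by nlinarith
  have hqf : q ≤ qf η N := by
    have h2 : (q : ℝ) ≤ (qf η N : ℝ) := by
      unfold qf
      refine le_trans ?_ (Nat.le_ceil _)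
      rw [← hLd]
      nlinarith
    exact_mod_cast h2
  have hq1' : (1 : ℝ) ≤ (q : ℝ) := by linarith
  have hq1 : 1 ≤ q := by exact_mod_cast hq1'
  have hM16' : 16 ≤ Mf r N := by simpa using hM16
  have hM1 : 1 ≤ Mf r N := by linarith
  have hlogN : Real.log N = L * Real.log 2 := log_eq N
  have hlogM : Real.log (Mf r N) = Real.log N / r := log_Mf hN1
  have hlogpos : 0 < Real.log N := by
    rw [hlogN]
    positivity
  have hlogs := log_succ_le hN1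
  have hlog16 : Real.log 16 = 4 * Real.log 2 := by
    rw [show (16 : ℝ) = 2 ^ 4 by norm_num, Real.log_pow]
    norm_num
  have hlsn : 0 ≤ Real.log ((N : ℝ) + 1) := Real.log_nonneg (by linarith)
  have hMp : 0 ≤ Mf r N ^ (27 * n0) := by positivity
  have hhub' : (q : ℝ) * Real.log (q * Mf r N ^ (27 * n0) + 1) ≤
      η / 1000 * L ^ 2 * Real.log 2 := (qlog_mono hMp hqf).trans hhub
  have hdeg' : (q : ℝ) * Real.log (q * (D0f η n N : ℝ) + 1) ≤
      1 / 1000 * η * Real.log 2 * L ^ 2 := (qlog_mono (Nat.cast_nonneg _) hqf).trans hdeg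
  constructor
  · constructor
    · exact h0
    · exact h1
    · exact hN2
    · exact hr2
    · exact hn01
    · exact hM16'
    · exact Mf_pow hr1
    · exact hq1
    · unfold D0f
      exact Nat.pow_le_pow_left (Nat.add_le_add_left (Nat.mul_le_mul_right _ hqf) _) _
    · exact AS_x0 (by linarith) hq0 hq3 (Nat.cast_nonneg _) (AS_Df_le N) hMx (by linarith)
    · exact hqL
    · exact hqU
    · exact AS_errP h0 hL0 hq0 hq3 hn0le hepsd hn2 hs3
    · calc (q : ℝ) * Real.log (q * Mf r N ^ (27 * n0) + 1) ≤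
          η / 1000 * L ^ 2 * Real.log 2 := hhub'
        _ = 1 / 1000 * η * L ^ 2 * Real.log 2 := by ring
    · exact hL1
    · rw [hlog16]
      have h2 : (5 * L + 5) * Real.log 2 ≤ η / 1000 * L ^ 2 * Real.log 2 :=
        mul_le_mul_of_nonneg_right hs5 hlog2.le
      have h3 : 0 ≤ L * Real.log 2 := by positivity
      have h4 : 3 / 1000 * η * L ^ 2 * Real.log 2 = η / 1000 * L ^ 2 * Real.log 2 +
        1 / 1000 * η * Real.log 2 * L ^ 2 + η / 1000 * L ^ 2 * Real.log 2 := by ring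
      rw [h4]
      linarith
    · calc (r : ℝ) * errK (Mf r N) N r n0 r (D0f η n N) (Df N) q ≤
          (r : ℝ) * errK (Mf r N) N r n0 r (D0f η n N) (Df N) (qf η N) :=
            mul_le_mul_of_nonneg_left (errK_mono hM1 hN1 r n0 r _ _ hqf) hr0.le
        _ ≤ 1 / 100 * η * Real.log 2 * L ^ 2 := herr
        _ = 1 / 100 * η * L ^ 2 * Real.log 2 := by ring
    · linarith
  · constructor
    · exact hN2
    · exact hq1
    · linarith
    · exact hp0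
    · exact hp1
    · exact hD1
    · exact hT0
    · exact (exc_mono hp0 hp1 D1 T0 k0 hqf).trans hexc
    · exact heps0
    · rw [hlogM, hlogN]
      rw [div_le_iff₀ (by positivity)] at hLb
      rw [← mul_div_assoc, le_div_iff₀ hr0]
      linarith
    · rw [hlogM]
      rw [div_lt_iff₀ heps0] at hLc
      have h2 : 4 * (r : ℝ) < q * eps := by nlinarith
      have h3 : (q : ℝ) * (eps / 4) * (Real.log N / r) =
        (q * eps / (4 * r)) * Real.log N := by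
        field_simp
      rw [h3]
      have h4 : 1 < q * eps / (4 * r) := by
        rw [lt_div_iff₀ (by positivity)]
        linarith
      nlinarith
    · rw [hlogM]
      have h3 : (np : ℝ) * (eps * (Real.log N / r)) = (np * eps / r) * Real.log N := by
        field_simp
      rw [h3]
      have h4 : 4 ≤ np * eps / r := by
        rw [le_div_iff₀ hr0]
        linarith
      nlinarith
    · rw [hlogN]
      have hsq' : (Nat.sqrt q : ℝ) * Real.log ((N : ℝ) + 1) ≤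
          1 / 1000 * η * Real.log 2 * L ^ 2 := by
        refine le_trans (mul_le_mul_of_nonneg_right ?_ hlsn) hsq
        exact_mod_cast Nat.sqrt_le_sqrt hqf
      exact AS_cost h0 h1 hL0 hlog2 hq3 hlogs rfl hsq' hsnp (Nat.cast_nonneg _) hlsn

end C0mc
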