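import Pool.Agent.W_c0up_h14.RD
import Pool.Agent.W_c0up_h86.C4

/-!
# MP_c0ce05_co, Q2 (proofs row 518), section 9: counting all sources of a clique

`count_all`: with `s0` = number of the small generators, both the number of the fine sources and
the number of ALL sources of `A` with target inside `A` are bounded by the number of the pairs in
question minus `C(s0, 2)` plus the number of exceptional pairs.
-/

set_option autoImplicit false

namespace C0mc

open scoped Classical
open C0lo C0st

variable {N r : ℕ}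

theorem count_all (P : GP N) {Dl : ℕ} (hP : P.Valid Dl) (A R : Finset (Fin N)) (n : ℕ)
    (lv : ℕ → ℕ) (s : St N r) (hdb : s.db = P.db)
    (hrel : ∀ a b, (a, b) ∈ s.rel ↔ Bef s.ty a b ∧ Rch P R n a b)
    (hL : ∀ x ∈ A, x ∈ Lam P R → x ∈ Vs lv s 0) :
    ∃ s0 : ℕ, s0 ≤ (Ge lv s A).card ∧
      (Ge lv s A).card * (n / 2 + 1) ≤ s0 * (n / 2 + 1) + A.card ∧
      dbl s ((ed A).filter (fun e => Fine lv s A e)) + s0.choose 2 ≤
        (A \ Vs lv s 0).card.choose 2 + (Ge lv s A).card * (A ∩ Vs lv s 0).card +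
          (excS P A R).card ∧
      (P.db.filter (fun d => d.1 ∈ ed A ∧ d.2 ∈ ed A)).card + s0.choose 2 ≤
        A.card.choose 2 + (excS P A R).card := by
  set k : ℕ := n / 2 with hkd
  have hk : 2 * k ≤ n := by omega
  have hr : RelOk s P R n := hrel
  set G := Ge lv s A with hG
  set F := A \ Vs lv s 0 with hF
  -- the exceptional pairs outside the hub
  have hexc : ((F ×ˢ F).filter (fun z => Exc P A R z.1 z.2)).card ≤ (excS P A R).card := by
    refine Finset.card_le_card ?_
    intro z hz
    obtain ⟨hz1, hz2⟩ := Finset.mem_filter.1 hz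
    obtain ⟨hz3, hz4⟩ := Finset.mem_product.1 hz1
    rw [hF] at hz3 hz4
    obtain ⟨h6, h7⟩ := Finset.mem_sdiff.1 hz3
    obtain ⟨h8, h9⟩ := Finset.mem_sdiff.1 hz4
    exact Finset.mem_filter.2 ⟨Finset.mem_product.2 ⟨h6, h8⟩,
      fun h => h7 (hL _ h6 h), fun h => h9 (hL _ h8 h), hz2⟩
  have hlarge := large_few lv hr hk A
  rw [← hG] at hlarge
  have hpart := Finset.card_filter_add_card_filter_not
    (s := G) (fun g => (Bl P A R g k).card ≤ k)
  have hsmall := small_pairs lv hP hr hk A
  rw [← hG, ← hF] at hsmall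
  have hedF := Finset.card_filter_add_card_filter_not
    (s := ed F) (fun e => Dsc P A e ∧ ¬ Ex P A R e)
  rw [card_ed] at hedF
  have himg : (((F ×ˢ F).filter (fun z => Exc P A R z.1 z.2)).image
      (fun z => s(z.1, z.2))).card ≤ (excS P A R).card :=
    Finset.card_image_le.trans hexc
  refine ⟨(G.filter (fun g => (Bl P A R g k).card ≤ k)).card, Finset.card_filter_le _ _, ?_, ?_, ?_⟩
  · calc G.card * (k + 1) =
        (G.filter (fun g => (Bl P A R g k).card ≤ k)).card * (k + 1) +
          (k + 1) * (G.filter (fun g => ¬ (Bl P A R g k).card ≤ k)).card := by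
          rw [← hpart]; ring
      _ ≤ _ := Nat.add_le_add_left hlarge _
  · -- the fine sources
    have h4 : dbl s ((ed A).filter (fun e => Fine lv s A e)) ≤ (DP lv s P A).card := by
      unfold dbl
      rw [hdb]
      refine Finset.card_le_card_of_injOn (fun d => d.1) ?_ ?_
      · intro d hd
        obtain ⟨hd1, hd2, hd3⟩ := Finset.mem_filter.1 hd
        obtain ⟨h5, h6⟩ := Finset.mem_filter.1 hd2
        obtain ⟨h7, _⟩ := Finset.mem_filter.1 hd3
        exact Finset.mem_filter.2 ⟨h5, h6, d.2, hd1, (mem_ed.1 h7).1⟩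
      · intro d hd d' hd' hdd
        exact hP.fn d (Finset.mem_filter.1 hd).1 d' (Finset.mem_filter.1 hd').1 hdd
    have h3 : DP lv s P A ⊆ ((ed F).filter (fun e => Dsc P A e ∧ ¬ Ex P A R e)) ∪
        ((F ×ˢ F).filter (fun z => Exc P A R z.1 z.2)).image (fun z => s(z.1, z.2)) ∪
        (G ×ˢ (A ∩ Vs lv s 0)).image (fun z => s(z.1, z.2)) := by
      intro e he
      obtain ⟨he1, he2, he3⟩ := Finset.mem_filter.1 he
      by_cases heF : e ∈ ed F
      · by_cases hx : Ex P A R e
        · obtain ⟨y, w, hyw, hexc⟩ := hx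
          refine Finset.mem_union_left _ (Finset.mem_union_right _ ?_)
          rw [Finset.mem_image]
          refine ⟨(y, w), Finset.mem_filter.2 ⟨Finset.mem_product.2 ⟨?_, ?_⟩, hexc⟩, hyw.symm⟩
          · exact (mem_ed.1 heF).1 y (hyw ▸ Sym2.mem_mk_left y w)
          · exact (mem_ed.1 heF).1 w (hyw ▸ Sym2.mem_mk_right y w)
        · exact Finset.mem_union_left _ (Finset.mem_union_left _
            (Finset.mem_filter.2 ⟨heF, he3, hx⟩))
      · obtain ⟨g, hg, h, hh, hgh⟩ := fine_split he1 he2 heF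
        refine Finset.mem_union_right _ ?_
        rw [Finset.mem_image]
        exact ⟨(g, h), Finset.mem_product.2 ⟨hg, hh⟩, hgh.symm⟩
    have h4' := Finset.card_le_card h3
    have h5 := Finset.card_union_le
      (((ed F).filter (fun e => Dsc P A e ∧ ¬ Ex P A R e)) ∪
        ((F ×ˢ F).filter (fun z => Exc P A R z.1 z.2)).image (fun z => s(z.1, z.2)))
      ((G ×ˢ (A ∩ Vs lv s 0)).image (fun z => s(z.1, z.2)))
    have h6 := Finset.card_union_le ((ed F).filter (fun e => Dsc P A e ∧ ¬ Ex P A R e))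
      (((F ×ˢ F).filter (fun z => Exc P A R z.1 z.2)).image (fun z => s(z.1, z.2)))
    have h8 : ((G ×ˢ (A ∩ Vs lv s 0)).image (fun z => s(z.1, z.2))).card ≤
        G.card * (A ∩ Vs lv s 0).card := by
      rw [← Finset.card_product]
      exact Finset.card_image_le
    omega
  · -- all sources
    have h4 : (P.db.filter (fun d => d.1 ∈ ed A ∧ d.2 ∈ ed A)).card ≤
        ((ed A).filter (fun e => Dsc P A e)).card := by
      refine Finset.card_le_card_of_injOn (fun d => d.1) ?_ ?_
      · intro d hd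
        obtain ⟨hd1, hd2, hd3⟩ := Finset.mem_filter.1 hd
        exact Finset.mem_filter.2 ⟨hd2, d.2, hd1, (mem_ed.1 hd3).1⟩
      · intro d hd d' hd' hdd
        exact hP.fn d (Finset.mem_filter.1 hd).1 d' (Finset.mem_filter.1 hd').1 hdd
    have hFA : ed F ⊆ ed A := by
      intro e he
      rw [mem_ed] at he ⊢
      exact ⟨fun v hv => (Finset.mem_sdiff.1 (he.1 v hv)).1, he.2⟩
    have h3 : (ed A).filter (fun e => Dsc P A e) ⊆ (ed A \ ed F) ∪
        (((ed F).filter (fun e => Dsc P A e ∧ ¬ Ex P A R e)) ∪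
        ((F ×ˢ F).filter (fun z => Exc P A R z.1 z.2)).image (fun z => s(z.1, z.2))) := by
      intro e he
      obtain ⟨he1, he3⟩ := Finset.mem_filter.1 he
      by_cases heF : e ∈ ed F
      · by_cases hx : Ex P A R e
        · obtain ⟨y, w, hyw, hexc⟩ := hx
          refine Finset.mem_union_right _ (Finset.mem_union_right _ ?_)
          rw [Finset.mem_image]
          refine ⟨(y, w), Finset.mem_filter.2 ⟨Finset.mem_product.2 ⟨?_, ?_⟩, hexc⟩, hyw.symm⟩
          · exact (mem_ed.1 heF).1 y (hyw ▸ Sym2.mem_mk_left y w)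
          · exact (mem_ed.1 heF).1 w (hyw ▸ Sym2.mem_mk_right y w)
        · exact Finset.mem_union_right _ (Finset.mem_union_left _
            (Finset.mem_filter.2 ⟨heF, he3, hx⟩))
      · exact Finset.mem_union_left _ (Finset.mem_sdiff.2 ⟨he1, heF⟩)
    have h4' := Finset.card_le_card h3
    have h5 := Finset.card_union_le (ed A \ ed F)
      (((ed F).filter (fun e => Dsc P A e ∧ ¬ Ex P A R e)) ∪
        ((F ×ˢ F).filter (fun z => Exc P A R z.1 z.2)).image (fun z => s(z.1, z.2)))
    have h6 := Finset.card_union_le ((ed F).filter (fun e => Dsc P A e ∧ ¬ Ex P A R e))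
      (((F ×ˢ F).filter (fun z => Exc P A R z.1 z.2)).image (fun z => s(z.1, z.2)))
    have h7 := Finset.card_sdiff_add_card_eq_card hFA
    rw [card_ed, card_ed] at h7
    omega

end C0mc
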