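import Pool.Agent.W_c0up_h14.PinC
import Pool.Agent.W_c0q2_h14.DefM
import Pool.Agent.W_c0up_h14.RD
import Pool.Agent.W_c0up_h86.D1

/-!
# MP_c0ce05_co, Q2 (proofs row 518), section 9: reduction of the family
-/

set_option autoImplicit false

namespace C0mc

open scoped Classical
open C0lo C0st

/-- Reduction of a family (see `C0st.exists_family`). -/
theorem exists_family {η M eps E0 p : ℝ} {N q D1 T0 k0 np : ℕ}
    (h : Fam η M eps E0 p N q D1 T0 k0 np) (P : GP N) {Dl : ℕ} (hP : P.Valid Dl)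
    (F : Finset (Finset (Fin N))) (hcard : ∀ A ∈ F, A.card = q) (hne : F.Nonempty) :
    ∃ (C : Finset (Finset (Fin N))) (R : Finset (Fin N)), C ⊆ F ∧ C.Nonempty ∧
      R.card ≤ q ∧ (∀ A ∈ C, ((excS P A R).card : ℝ) ≤ E0) ∧
      ∑ A ∈ C, (((A ×ˢ A).filter (fun p => Bad M C p.1 p.2)).card : ℝ) ≤
        eps * (q : ℝ) ^ 2 * C.card ∧
      Real.log (F.card : ℝ) ≤
        Real.log (C.card : ℝ) + 4 / 1000 * η * Real.logb 2 N ^ 2 * Real.log 2 := by
  have hgood : ∀ A ∈ F, ∃ R : Finset (Fin N), R ⊆ A ∧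
      (R.card : ℝ) ≤ 3 * p * q + (Nat.sqrt q : ℝ) ∧ ((excS P A R).card : ℝ) ≤ E0 := by
    intro A hA
    have hq := hcard A hA
    obtain ⟨R, h1, h2, h3⟩ := exists_goodG P hP A h.p0 h.p1 D1 T0 k0 (Nat.sqrt q) (Nat.sqrt q)
      h.D11 h.T01 (by
        rw [hq]
        exact Nat.lt_succ_sqrt q)
    rw [hq] at h2 h3
    exact ⟨R, h1, h2, h3.trans h.exc⟩
  choose! Rf hR1 hR2 hR3 using hgood
  obtain ⟨rm, hrm⟩ : ∃ rm : ℕ, rm = ⌊3 * p * q + (Nat.sqrt q : ℝ)⌋₊ := ⟨_, rfl⟩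
  have hx0 : 0 ≤ 3 * p * q + (Nat.sqrt q : ℝ) := by
    have := h.p0
    positivity
  have hT : (F.image Rf).card ≤ (N + 1) ^ rm := by
    have h1 : F.image Rf ⊆
        (Finset.univ : Finset (Finset (Fin N))).filter (fun t => t.card ≤ rm) := by
      intro t ht
      obtain ⟨A, hA, rfl⟩ := Finset.mem_image.1 ht
      rw [Finset.mem_filter, hrm]
      exact ⟨Finset.mem_univ _, Nat.le_floor (hR2 A hA)⟩
    have h2 := (Finset.card_le_card h1).trans (card_small (α := Fin N) rm)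
    rwa [Fintype.card_fin] at h2
  obtain ⟨R0, hR0, hmax⟩ := Finset.exists_max_image (F.image Rf)
    (fun t => (F.filter (fun A => Rf A = t)).card) (hne.image Rf)
  obtain ⟨C0, hC0⟩ : ∃ C0, C0 = F.filter (fun A => Rf A = R0) := ⟨_, rfl⟩
  have hpig : F.card ≤ C0.card * (F.image Rf).card := by
    rw [hC0]
    exact Finset.card_le_mul_card_image F _ hmax
  obtain ⟨A0, hA0, hA0R⟩ := Finset.mem_image.1 hR0
  have hC0ne : C0.Nonempty := ⟨A0, by
    rw [hC0, Finset.mem_filter]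
    exact ⟨hA0, hA0R⟩⟩
  have hC0m : ∀ A ∈ C0, A ∈ F ∧ Rf A = R0 := by
    intro A hA
    rw [hC0] at hA
    exact Finset.mem_filter.1 hA
  have hN2 := h.N2
  obtain ⟨C, hC1, hC2, hC3, hC4⟩ := pin C0 hC0ne q h.q1 (fun A hA => hcard A (hC0m A hA).1)
    (by omega) h.M1 h.eps0 h.pin1 h.pin2 np h.pin3
  refine ⟨C, R0, fun A hA => (hC0m A (hC1 hA)).1, hC2, ?_, ?_, hC4, ?_⟩
  · rw [← hA0R, ← hcard A0 hA0]
    exact Finset.card_le_card (hR1 A0 hA0)
  · intro A hA
    have h1 := hC0m A (hC1 hA)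
    rw [← h1.2]
    exact hR3 A h1.1
  · have hc0 : (0 : ℝ) < (C.card : ℝ) := by exact_mod_cast hC2.card_pos
    have hf0 : (0 : ℝ) < (F.card : ℝ) := by exact_mod_cast hne.card_pos
    have hN0 : (0 : ℝ) < (N : ℝ) := by
      have : 0 < N := by omega
      exact_mod_cast this
    have h1 : (F.card : ℝ) ≤ C.card * (N : ℝ) ^ np * ((N : ℝ) + 1) ^ rm := by
      have h2 : (F.card : ℝ) ≤ (C0.card : ℝ) * ((N : ℝ) + 1) ^ rm := by
        have h3 := hpig.trans (Nat.mul_le_mul_left C0.card hT)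
        exact_mod_cast h3
      exact h2.trans (mul_le_mul_of_nonneg_right hC3 (by positivity))
    have h2 := Real.log_le_log hf0 h1
    rw [Real.log_mul (by positivity) (by positivity), Real.log_mul (by positivity) (by positivity),
      Real.log_pow, Real.log_pow] at h2
    have h3 : (rm : ℝ) ≤ 3 * p * q + (Nat.sqrt q : ℝ) := by
      rw [hrm]
      exact Nat.floor_le hx0
    have h4 : 0 ≤ Real.log ((N : ℝ) + 1) := Real.log_nonneg (by linarith)
    have h5 := mul_le_mul_of_nonneg_right h3 h4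
    have h6 := h.cost
    linarith

end C0mc
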