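import Mathlib

/-!
# MP_c0ce05_co, Q2 (proofs row 518), section 9: the final numbers

`L = log₂ N`, `q = f + u ≤ 2 L`, `q ≥ (2 - η) L`; the links inside the clique number at least
`400 η L²` and at most `q²/2 - s0²/2 + …`.
-/

set_option autoImplicit false

namespace C0mc

/-- First alternative, `L/2 ≤ g`. -/
theorem num_hi {η g0 L f g u : ℝ} (hη : 0 < η) (hη1 : η ≤ 1 / 200) (h1 : 41 / 100 ≤ g0)
    (h2 : g0 ≤ 42 / 100) (hL : 0 < L) (hu : 0 ≤ u) (hgf : g ≤ f) (hc : L / 2 ≤ g)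
    (hq : (2 - η) * L ≤ f + u) (hq2 : f + u ≤ 2 * L) {e : ℝ} (he : 0 ≤ e)
    (hs : g ^ 2 ≤ 4 * L ^ 2 - 800 * (η * L ^ 2) + e) :
    g * L - (1 - g0) * (f ^ 2 / 2 + g * u) - g0 * (g ^ 2 / 2) + η * L ^ 2 ≤
      2 / 100 * e := by
  have hg0 : 0 < g := by linarith
  have hgL : 0 < g * L := mul_pos hg0 hL
  have hηLL : 0 < η * L ^ 2 := by positivity
  have hg2 : g ≤ 2 * L := by linarith
  -- `f²/2 + g u ≥ g q - g²/2`
  have hcom : (2 - η) * (g * L) - g ^ 2 / 2 ≤ f ^ 2 / 2 + g * u := by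
    have a1 : g * ((2 - η) * L) ≤ g * (f + u) := mul_le_mul_of_nonneg_left hq hg0.le
    nlinarith [sq_nonneg (f - g)]
  have c1 : (1 - g0) * ((2 - η) * (g * L) - g ^ 2 / 2) ≤ (1 - g0) * (f ^ 2 / 2 + g * u) :=
    mul_le_mul_of_nonneg_left hcom (by linarith)
  -- main term
  have c2 : g * L - (1 - g0) * ((2 - η) * (g * L) - g ^ 2 / 2) - g0 * (g ^ 2 / 2) =
      - (1 - 2 * g0) * (g * (L - g / 2)) + (1 - g0) * (η * (g * L)) := by ring
  have c3 : 0 ≤ g * (L - g / 2) := mul_nonneg hg0.le (by linarith)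
  have c4 : 16 / 100 * (g * (L - g / 2)) ≤ (1 - 2 * g0) * (g * (L - g / 2)) :=
    mul_le_mul_of_nonneg_right (by linarith) c3
  have c5 : η * (g * L) ≤ 2 * (η * L ^ 2) := by
    have := mul_le_mul_of_nonneg_left hg2 (mul_pos hη hL).le
    nlinarith
  have c6 : (1 - g0) * (η * (g * L)) ≤ 59 / 100 * (2 * (η * L ^ 2)) := by
    apply mul_le_mul (by linarith) c5 _ (by norm_num)
    positivity
  -- `g (L - g/2) ≥ (L/2) (2 L - g)/2`
  have c7 : L / 4 * (2 * L - g) ≤ g * (L - g / 2) := by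
    have : 0 ≤ (g - L / 2) * ((2 * L - g) / 2) := mul_nonneg (by linarith) (by linarith)
    nlinarith
  -- `4 L (2 L - g) ≥ 4 L² - g²`
  have c8 : 4 * L ^ 2 - g ^ 2 ≤ 4 * L * (2 * L - g) := by
    nlinarith [sq_nonneg (2 * L - g)]
  nlinarith

/-- Second alternative, `g ≤ L/2`. -/
theorem num_lo {η g0 L f g u : ℝ} (hη : 0 < η) (hη1 : η ≤ 1 / 200) (h1 : 41 / 100 ≤ g0)
    (h2 : g0 ≤ 42 / 100) (hL : 0 < L) (hc : g ≤ L / 2)
    (hg : 56 / 100 * η * L ≤ g) (hq : (2 - η) * L ≤ f + u) :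
    g * L - (1 - g0) * (f ^ 2 / 2 + g * u - η * L ^ 2) ≤ 50 / 100 * η * L ^ 2 := by
  have hηL : 0 < η * L := mul_pos hη hL
  have hg0 : 0 < g := by nlinarith
  have hLL : 0 < L ^ 2 := by positivity
  have hηLL : 0 < η * L ^ 2 := by positivity
  have hcom : (2 - η) * (g * L) - g ^ 2 / 2 ≤ f ^ 2 / 2 + g * u := by
    have a1 : g * ((2 - η) * L) ≤ g * (f + u) := mul_le_mul_of_nonneg_left hq hg0.le
    nlinarith [sq_nonneg (f - g)]
  have b1 : 0 ≤ (g - 56 / 100 * η * L) * (L / 2 - g) :=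
    mul_nonneg (by linarith) (by linarith)
  have b2 : g ^ 2 ≤ g * L / 2 + 56 / 100 * (η * (g * L)) - 28 / 100 * (η * L ^ 2) := by
    nlinarith
  have b3 : 56 / 100 * (η * L ^ 2) ≤ g * L := by nlinarith
  have hgL : 0 < g * L := mul_pos hg0 hL
  have b4 : 0 < η * (g * L) := mul_pos hη hgL
  have b4' : η * (g * L) ≤ 1 / 200 * (g * L) := mul_le_mul_of_nonneg_right hη1 hgL.le
  -- positivity of the bracket
  have b5 : 0 ≤ (2 - η) * (g * L) - g ^ 2 / 2 - η * L ^ 2 := by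
    nlinarith
  have b7 : 58 / 100 * ((2 - η) * (g * L) - g ^ 2 / 2 - η * L ^ 2) ≤
      (1 - g0) * (f ^ 2 / 2 + g * u - η * L ^ 2) := by
    apply mul_le_mul (by linarith) (by linarith) b5 (by linarith)
  nlinarith

/-- The final inequality with error terms. `Da` = number of all links inside the clique. -/
theorem num3 {η g0 L f g u T D s0 e1 E0 δ Da : ℝ} (hη : 0 < η) (hη1 : η ≤ 1 / 200)
    (h1 : 41 / 100 ≤ g0) (h2 : g0 ≤ 42 / 100) (hL : 0 < L) (hu : 0 ≤ u) (hgf : g ≤ f)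
    (hg : 56 / 100 * η * L ≤ g) (hq : (2 - η) * L ≤ f + u) (hq2 : f + u ≤ 2 * L)
    (he1 : 0 ≤ e1) (hE0 : 0 ≤ E0) (hδ : 0 ≤ δ)
    (hT : f * (f - 1) / 2 + g * u ≤ T + η * L ^ 2 + e1) (hDT : D ≤ T)
    (hs0 : 0 ≤ s0) (hs1 : s0 ≤ g) (hs2 : g ≤ s0 + δ)
    (hD : D + s0 * (s0 - 1) / 2 ≤ f * (f - 1) / 2 + g * u + E0)
    (hDa : Da + s0 * (s0 - 1) / 2 ≤ (f + u) * ((f + u) - 1) / 2 + E0)
    (hDa2 : 400 * (η * L ^ 2) ≤ Da) :
    g * L - T + g0 * D ≤ 50 / 100 * η * L ^ 2 + (f + e1 + E0 + g * δ) := by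
  have hηL : 0 < η * L := mul_pos hη hL
  have hg0 : 0 < g := by nlinarith
  have hf0 : 0 < f := lt_of_lt_of_le hg0 hgf
  have hgδ : 0 ≤ g * δ := mul_nonneg hg0.le hδ
  have hηLL : 0 < η * L ^ 2 := by positivity
  rcases le_total g (L / 2) with hc | hc
  · -- second alternative
    have h := num_lo hη hη1 h1 h2 hL hc hg hq
    have hg1 : g0 * D ≤ g0 * T := mul_le_mul_of_nonneg_left hDT (by linarith)
    have hT2 : f ^ 2 / 2 + g * u - η * L ^ 2 - (f / 2 + e1) ≤ T := by nlinarith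
    have hT3 : (1 - g0) * (f ^ 2 / 2 + g * u - η * L ^ 2) - (1 - g0) * (f / 2 + e1) ≤
        (1 - g0) * T := by
      have := mul_le_mul_of_nonneg_left hT2 (show (0 : ℝ) ≤ 1 - g0 by linarith)
      nlinarith
    have hT4 : (1 - g0) * (f / 2 + e1) ≤ f + e1 := by
      have : 0 ≤ g0 * (f / 2 + e1) := mul_nonneg (by linarith) (by linarith)
      nlinarith
    nlinarith
  · -- first alternative
    have hs : g ^ 2 - 2 * (g * δ) ≤ s0 ^ 2 := by
      rcases le_total δ g with hd | hd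
      · have : (g - δ) ^ 2 ≤ s0 ^ 2 := pow_le_pow_left₀ (by linarith) (by linarith) 2
        nlinarith
      · have : g ^ 2 ≤ g * δ := by nlinarith
        nlinarith [sq_nonneg s0]
    -- the bound for `g`
    have hq3 : (f + u) ^ 2 ≤ 4 * L ^ 2 := by
      have : (f + u) ^ 2 ≤ (2 * L) ^ 2 := pow_le_pow_left₀ (by linarith) hq2 2
      nlinarith
    have hgb : g ^ 2 ≤ 4 * L ^ 2 - 800 * (η * L ^ 2) + (2 * E0 + 2 * (g * δ)) := by
      have e1 : s0 ≤ f + u := by linarith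
      nlinarith
    have h := num_hi hη hη1 h1 h2 hL hu hgf hc hq hq2 (e := 2 * E0 + 2 * (g * δ))
      (by positivity) hgb
    have hD' : D ≤ f ^ 2 / 2 + g * u + E0 - s0 ^ 2 / 2 + s0 / 2 - f / 2 := by nlinarith
    have hD2 : D ≤ f ^ 2 / 2 + g * u - g ^ 2 / 2 + (E0 + g * δ) := by
      have : s0 / 2 - f / 2 ≤ 0 := by linarith
      nlinarith
    have hD3 : g0 * D ≤ g0 * (f ^ 2 / 2 - g ^ 2 / 2 + g * u) + g0 * (E0 + g * δ) := by
      have := mul_le_mul_of_nonneg_left hD2 (show (0 : ℝ) ≤ g0 by linarith)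
      nlinarith
    have hD4 : g0 * (E0 + g * δ) ≤ 42 / 100 * (E0 + g * δ) :=
      mul_le_mul_of_nonneg_right h2 (by linarith)
    have hT2 : f ^ 2 / 2 + g * u - η * L ^ 2 - (f / 2 + e1) ≤ T := by nlinarith
    nlinarith

end C0mc
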