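import Pool.Agent.W_c0up_h14.PW
import Pool.Agent.W_c0q2_h14.CN
import Pool.Agent.W_c0q2_h14.NU

/-!
# MP_c0ce05_co, Q2 (proofs row 518), section 9: the pointwise bound
-/

set_option autoImplicit false

namespace C0mc

open scoped Classical
open C0lo C0st

variable {N r : ℕ}

/-- the real inequality behind the pointwise bound; all numbers are abstract -/
theorem pt_real {η L q lg2 lg43 f g u T D e1 E0 n2 : ℝ} {s0 Da fn gn' un : ℕ}
    (hη : 0 < η) (hη1 : η ≤ 1 / 200) (hlg : 0 < lg2) (hg1 : 41 / 100 ≤ lg43 / lg2)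
    (hg2 : lg43 / lg2 ≤ 42 / 100) (hL : 0 < L) (hn2 : 0 < n2)
    (hf : (fn : ℝ) = f) (hgn : (gn' : ℝ) = g) (hun : (un : ℝ) = u)
    (hfu : f + u = q) (hgf : g ≤ f) (hg : 56 / 100 * η * L ≤ g) (hq : (2 - η) * L ≤ q)
    (hq2 : q ≤ 2 * L) (he1 : 0 ≤ e1) (hE0 : 0 ≤ E0)
    (hT : f * (f - 1) / 2 + g * u ≤ T + η * L ^ 2 + e1) (hDT : D ≤ T)
    (hs1 : (s0 : ℝ) ≤ g) (hs2 : g ≤ s0 + q / n2)
    (hD : D + (s0 : ℝ) * ((s0 : ℝ) - 1) / 2 ≤ f * (f - 1) / 2 + g * u + E0)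
    (hDa : (Da : ℝ) + (s0 : ℝ) * ((s0 : ℝ) - 1) / 2 ≤ q * (q - 1) / 2 + E0)
    (hDa2 : 400 * (η * L ^ 2) ≤ (Da : ℝ)) :
    g * (L * lg2) - (lg2 * T - lg43 * D) ≤
      lg2 * (50 / 100 * η * L ^ 2 + (q + e1 + E0 + q ^ 2 / n2)) := by
  have hu0 : 0 ≤ u := by
    rw [← hun]
    exact Nat.cast_nonneg _
  have hg0 : 0 ≤ g := by
    rw [← hgn]
    exact Nat.cast_nonneg _
  have hf0 : 0 ≤ f := hg0.trans hgf
  have hq0 : 0 ≤ q := by linarith
  have hmain := num3 (η := η) (g0 := lg43 / lg2) (L := L) (f := f) (g := g) (u := u) (T := T)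
    (D := D) (s0 := (s0 : ℝ)) (e1 := e1) (E0 := E0) (δ := q / n2) (Da := (Da : ℝ))
    hη hη1 hg1 hg2 hL hu0 hgf hg (by rw [hfu]; exact hq)
    (by rw [hfu]; exact hq2) he1 hE0 (div_nonneg hq0 hn2.le) hT hDT (Nat.cast_nonneg _) hs1 hs2
    hD (by rw [hfu]; exact hDa) hDa2
  have hgδ : g * (q / n2) ≤ q ^ 2 / n2 := by
    have h : g ≤ q := by linarith
    calc g * (q / n2) ≤ q * (q / n2) := mul_le_mul_of_nonneg_right h (div_nonneg hq0 hn2.le)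
      _ = q ^ 2 / n2 := by ring
  have hfin : g * L - T + lg43 / lg2 * D ≤
      50 / 100 * η * L ^ 2 + (q + e1 + E0 + q ^ 2 / n2) := by
    refine hmain.trans ?_
    linarith
  have hx : g * (L * lg2) - (lg2 * T - lg43 * D) = lg2 * (g * L - T + lg43 / lg2 * D) := by
    field_simp
    ring
  rw [hx]
  exact mul_le_mul_of_nonneg_left hfin hlg.le

/-- The pointwise bound (see `C0st.pointwise`), with all links inside the clique. -/
theorem pointwise {η z b E0 : ℝ} (hη : 0 < η) (hη1 : η ≤ 1 / 200) (hN : 2 ≤ N) {Dl q hu K n : ℕ}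
    (P : GP N) (hP : P.Valid Dl) (A R : Finset (Fin N)) (lv : ℕ → ℕ) (hlv : Monotone lv)
    (s : St N r) (hdb : s.db = P.db) (hclm : s.clm = P.C)
    (hrel : ∀ a b, (a, b) ∈ s.rel ↔ Bef s.ty a b ∧ Rch P R n a b)
    (hL : ∀ x ∈ A, x ∈ Lam P R → x ∈ Vs lv s 0) (hK : 2 * r + 5 ≤ lv K)
    (hty : ∀ x ∈ A, (s.ty x : ℕ) ≤ r) (hA : A.card = q) (hun : (ed A \ P.C).card ≤ hu)
    (hhu : (hu : ℝ) ≤ η * Real.logb 2 N ^ 2) (hq : (2 - η) * Real.logb 2 N ≤ q)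
    (hq2 : (q : ℝ) ≤ 2 * Real.logb 2 N)
    (hDa : 400 * (η * Real.logb 2 N ^ 2) ≤
      ((P.db.filter (fun d => d.1 ∈ ed A ∧ d.2 ∈ ed A)).card : ℝ))
    (M : ℝ) (C : Finset (Finset (Fin N)))
    (hb : (((A ×ˢ A).filter (fun p => Bad M C p.1 p.2)).card : ℝ) ≤ b)
    (hz : (((ed A).filter (fun e => Zone lv K (tau s e))).card : ℝ) ≤ z)
    (hE : ((excS P A R).card : ℝ) ≤ E0)
    (hg : 56 / 100 * η * Real.logb 2 N ≤ (Ge lv s A).card) :
    ((Ge lv s A).card : ℝ) * Real.log N -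
        ∑ k ∈ Finset.range K, gn s (Uk lv s M C k A) (Pairs lv s k A) ≤
      Real.log 2 * (50 / 100 * η * Real.logb 2 N ^ 2 +
        (q + (z + b) + E0 + (q : ℝ) ^ 2 / ((n / 2 + 1 : ℕ) : ℝ))) := by
  obtain ⟨s0, hs1, hs2, hs3, hs4⟩ := count_all P hP A R n lv s hdb hrel hL
  have hlog2 : 0 < Real.log 2 := Real.log_pos (by norm_num)
  have hN1 : (1 : ℝ) < N := by
    have : (2 : ℝ) ≤ N := by exact_mod_cast hN
    linarith
  have hLpos : 0 < Real.logb 2 N := Real.logb_pos (by norm_num) hN1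
  have hlogN : Real.log N = Real.logb 2 N * Real.log 2 := by
    unfold Real.logb
    field_simp
  -- cardinalities
  have hGsub : Ge lv s A ⊆ A \ Vs lv s 0 := by
    intro x hx
    have h := Finset.mem_filter.1 hx
    exact Finset.mem_sdiff.2 ⟨h.1, h.2.1⟩
  have hgf : (Ge lv s A).card ≤ (A \ Vs lv s 0).card := Finset.card_le_card hGsub
  have hfu : (A \ Vs lv s 0).card + (A ∩ Vs lv s 0).card = q := by
    rw [← hA]
    exact Finset.card_sdiff_add_card_inter A (Vs lv s 0)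
  have hcl := claimed_lower lv K s hK M C A hty
  have hun' : ((ed A \ s.clm).card : ℝ) ≤ η * Real.logb 2 N ^ 2 := by
    rw [hclm]
    have h : ((ed A \ P.C).card : ℝ) ≤ hu := by exact_mod_cast hun
    exact h.trans hhu
  have hdin : ∀ d ∈ s.db, ∀ d' ∈ s.db, d.1 = d'.1 → d = d' := by
    rw [hdb]
    exact hP.fn
  have hdcl : ∀ d ∈ s.db, d.1 ∈ s.clm := by
    rw [hdb, hclm]
    exact hP.fst
  have hDTn : (∑ k ∈ Finset.range K, prt s (Uk lv s M C k A) (Pairs lv s k A)) ≤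
      ∑ k ∈ Finset.range K, (Uk lv s M C k A ∩ s.clm).card :=
    Finset.sum_le_sum (fun k _ => prt_le s hdin hdcl _ _)
  have hsum := sum_prt_le lv hlv K s M C A
  have hDN : (∑ k ∈ Finset.range K, prt s (Uk lv s M C k A) (Pairs lv s k A)) + s0.choose 2 ≤
      (A \ Vs lv s 0).card.choose 2 + (Ge lv s A).card * (A ∩ Vs lv s 0).card +
        (excS P A R).card := (Nat.add_le_add_right hsum _).trans hs3
  -- the gains
  have hgn : ∑ k ∈ Finset.range K, gn s (Uk lv s M C k A) (Pairs lv s k A) =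
      Real.log 2 * (((∑ k ∈ Finset.range K, (Uk lv s M C k A ∩ s.clm).card : ℕ)) : ℝ) -
        Real.log (4 / 3) *
          (((∑ k ∈ Finset.range K, prt s (Uk lv s M C k A) (Pairs lv s k A) : ℕ)) : ℝ) := by
    unfold gn
    rw [Finset.sum_sub_distrib, ← Finset.sum_mul, ← Finset.sum_mul]
    push_cast
    ring
  rw [hgn, hlogN]
  clear hgn hsum hs3 hdcl hdin hgf hrel hL hty hGsub
  -- abstract numbers
  have hgf : (Ge lv s A).card ≤ (A \ Vs lv s 0).card := Finset.card_le_card (by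
    intro x hx
    have h := Finset.mem_filter.1 hx
    exact Finset.mem_sdiff.2 ⟨h.1, h.2.1⟩)
  rw [hA] at hs2 hs4
  generalize (P.db.filter (fun d => d.1 ∈ ed A ∧ d.2 ∈ ed A)).card = Da at hs4 hDa
  generalize (∑ k ∈ Finset.range K, prt s (Uk lv s M C k A) (Pairs lv s k A)) = Dn at hDTn hDN ⊢
  generalize (∑ k ∈ Finset.range K, (Uk lv s M C k A ∩ s.clm).card) = Tn at hDTn hcl ⊢
  generalize (Ge lv s A).card = gc at hs1 hs2 hg hcl hDN hgf ⊢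
  generalize (A \ Vs lv s 0).card = fc at hfu hcl hDN hgf
  generalize (A ∩ Vs lv s 0).card = uc at hfu hcl hDN
  generalize ((A ×ˢ A).filter (fun p => Bad M C p.1 p.2)).card = bc at hb hcl
  generalize ((ed A).filter (fun e => Zone lv K (tau s e))).card = zc at hz hcl
  generalize (excS P A R).card = ec at hE hDN hs4
  generalize (ed A \ s.clm).card = nc at hun' hcl
  have hz0 : 0 ≤ z := le_trans (Nat.cast_nonneg _) hz
  have hb0 : 0 ≤ b := le_trans (Nat.cast_nonneg _) hb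
  have hE00 : 0 ≤ E0 := le_trans (Nat.cast_nonneg _) hE
  have hn0 : (0 : ℝ) < ((n / 2 + 1 : ℕ) : ℝ) := by exact_mod_cast Nat.succ_pos _
  have hfuR : (fc : ℝ) + (uc : ℝ) = (q : ℝ) := by exact_mod_cast hfu
  have hgfR : (gc : ℝ) ≤ (fc : ℝ) := by exact_mod_cast hgf
  have hclR : ((fc.choose 2 : ℕ) : ℝ) + (gc : ℝ) * (uc : ℝ) ≤
      (Tn : ℝ) + (nc : ℝ) + (zc : ℝ) + (bc : ℝ) := by exact_mod_cast hcl
  rw [Nat.cast_choose_two] at hclR
  have hDR : (Dn : ℝ) + ((s0.choose 2 : ℕ) : ℝ) ≤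
      ((fc.choose 2 : ℕ) : ℝ) + (gc : ℝ) * (uc : ℝ) + (ec : ℝ) := by exact_mod_cast hDN
  rw [Nat.cast_choose_two, Nat.cast_choose_two] at hDR
  have hDaR : (Da : ℝ) + ((s0.choose 2 : ℕ) : ℝ) ≤ ((q.choose 2 : ℕ) : ℝ) + (ec : ℝ) := by
    exact_mod_cast hs4
  rw [Nat.cast_choose_two, Nat.cast_choose_two] at hDaR
  have hs2R : (gc : ℝ) ≤ (s0 : ℝ) + (q : ℝ) / ((n / 2 + 1 : ℕ) : ℝ) := by
    have h : (gc : ℝ) * ((n / 2 + 1 : ℕ) : ℝ) ≤
        (s0 : ℝ) * ((n / 2 + 1 : ℕ) : ℝ) + (q : ℝ) := by exact_mod_cast hs2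
    have h2 : (s0 : ℝ) + (q : ℝ) / ((n / 2 + 1 : ℕ) : ℝ) =
        ((s0 : ℝ) * ((n / 2 + 1 : ℕ) : ℝ) + (q : ℝ)) / ((n / 2 + 1 : ℕ) : ℝ) := by
      field_simp
    rw [h2, le_div_iff₀ hn0]
    exact h
  have hs1R : (s0 : ℝ) ≤ (gc : ℝ) := by exact_mod_cast hs1
  exact pt_real (s0 := s0) (Da := Da) (fn := fc) (gn' := gc) (un := uc) hη hη1 hlog2
    g0_bounds.1 g0_bounds.2 hLpos hn0 rfl rfl rfl hfuR hgfR hg hq hq2 (add_nonneg hz0 hb0) hE00
    (by linarith) (by exact_mod_cast hDTn) hs1R hs2R (by linarith) (by linarith) hDa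

end C0mc
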