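import Pool.Agent.W_c0up_h14.MB
import Pool.Agent.W_c0q2_h14.PT
import Pool.Agent.W_c0q2_h14.DefM
import Pool.Agent.W_c0up_h86.G1
import Pool.Agent.W_c0up_h86.D2

/-!
# MP_c0ce05_co, Q2 (proofs row 518), section 9: the main finite theorem
-/

set_option autoImplicit false

namespace C0mc

open scoped Classical
open C0lo C0st

/-- The main finite theorem (see `C0st.static_main`). The number of unclaimed edges of the members
is at most `h L²`, the number of the links inside at least `400 h L²`, `η ≤ h ≤ 1/200`. -/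
theorem static_main {η M eps E0 : ℝ} {N r n0 n q Dl D0 : ℕ}
    (H : Big η M eps E0 N r n0 n q Dl D0) :
    ∃ (ι : Type) (_ : Fintype ι) (Z : ι → Finset (Sym2 (Fin N))) (a : ι → ℝ),
      (∀ i, 0 ≤ a i) ∧ ∑ i, a i * (1 / 2 : ℝ) ^ (Z i).card ≤ 1 / 4 ∧
      ∀ P : GP N, P.Valid Dl → ∑ i, a i * P.mass (Z i) < 1 →
        ∀ (h : ℝ) (hu : ℕ), η ≤ h → h ≤ 1 / 200 → (hu : ℝ) ≤ h * Real.logb 2 N ^ 2 →
        ∀ (C : Finset (Finset (Fin N))) (R : Finset (Fin N)),
          (∀ A ∈ C, A.card = q ∧ Disjoint (ed A) P.K ∧ (ed A \ P.C).card ≤ hu ∧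
            400 * (h * Real.logb 2 N ^ 2) ≤
              ((P.db.filter (fun d => d.1 ∈ ed A ∧ d.2 ∈ ed A)).card : ℝ)) → C.Nonempty →
          R.card ≤ q → (∀ A ∈ C, ((excS P A R).card : ℝ) ≤ E0) →
          ∑ A ∈ C, (((A ×ˢ A).filter (fun p => Bad M C p.1 p.2)).card : ℝ) ≤
            eps * (q : ℝ) ^ 2 * C.card →
          Real.log (C.card : ℝ) ≤ 567 / 1000 * h * Real.logb 2 N ^ 2 * Real.log 2 := by
  have hN1 : 1 ≤ N := le_trans (by norm_num) H.N2
  have hM1 : (1 : ℝ) < M := by linarith [H.M16]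
  have hM0 : (0 : ℝ) < M := by linarith
  obtain ⟨ι, hι, Z, a, ha, hsum, hobj⟩ := gibbsHS (N := N) (r := r) hN1 (I := Fin n0)
    (fun i => lvo n0 (i : ℕ)) (fun i => br M (lvo n0 (i : ℕ)) (9 * n0))
    (fun i k => nd M r D0 q (lvo n0 (i : ℕ) k)) q r
  refine ⟨ι, hι, Z, a, ha, hsum, ?_⟩
  intro P hP hmass h hu hh1 hh2 hhu C R hCn hC0 hRq hE hBad
  by_contra hcon
  rw [not_le] at hcon
  have hCq : ∀ A ∈ C, A.card = q := fun A hA => (hCn A hA).1
  have hCK : ∀ A ∈ C, Disjoint (ed A) P.K := fun A hA => (hCn A hA).2.1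
  have hCu : ∀ A ∈ C, (ed A \ P.C).card ≤ hu := fun A hA => (hCn A hA).2.2.1
  set L : ℝ := Real.logb 2 N with hL
  have hη := H.e0
  have hh0 : 0 < h := lt_of_lt_of_le hη hh1
  have hlog2 : 0 < Real.log 2 := Real.log_pos (by norm_num)
  have hLL : 0 ≤ L ^ 2 := by positivity
  have hηh : η * L ^ 2 ≤ h * L ^ 2 := mul_le_mul_of_nonneg_right hh1 hLL
  have hηh2 : η * L ^ 2 * Real.log 2 ≤ h * L ^ 2 * Real.log 2 :=
    mul_le_mul_of_nonneg_right hηh hlog2.le
  set s : St N r := stG M r P C R n with hs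
  have hty : s.ty = typ M r C := rfl
  have hmS : ∑ j, a j * massS s (Z j) < 1 := by
    have h1 : ∀ j, massS s (Z j) = P.mass (Z j) := fun j => massS_stG M P C R n (Z j)
    rw [Finset.sum_congr rfl (fun j _ => by rw [h1 j])]
    exact hmass
  obtain ⟨i, hi, hoff⟩ := exists_offset n0 r H.n01 s C
  have hOk : Ok (lvo n0 i) (9 * n0) D0 Dl s := ok_stG H.n01 i M P hP C R n q D0 hRq H.D0e
  set lv : ℕ → ℕ := lvo n0 i with hlv
  have hlvge : ∀ k, 9 * (2 + k) ≤ lv k := lvo_ge H.n01 i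
  have hlvm : Monotone lv := lvo_mono n0 i
  have hL560 : 560 ≤ L := H.errN
  -- the members with few generators
  have hG0 : 16 * (C.filter (fun A => ((Ge lv s A).card : ℝ) < 56 / 100 * h * L)).card ≤
      C.card := by
    refine G0_small hM1 hi C hC0 q hCq s hty hOk.ord D0 hOk.deg (c := 56 / 100 * h * L) ?_ ?_
    · have hL0 : 0 ≤ L := by linarith
      positivity
    · refine le_trans ?_ hcon.le
      have h1 : Real.log ((N : ℝ) + 1) ≤ (L + 1) * Real.log 2 := by
        have hN' : (1 : ℝ) ≤ N := by exact_mod_cast hN1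
        have hLN : Real.log N = L * Real.log 2 := by
          rw [hL]
          unfold Real.logb
          field_simp
        rw [add_mul, ← hLN, one_mul, ← Real.log_mul (by positivity) (by norm_num)]
        apply Real.log_le_log (by positivity)
        linarith
      have h2 : 56 / 100 * h * L * Real.log ((N : ℝ) + 1) ≤
          56 / 100 * h * L * ((L + 1) * Real.log 2) :=
        mul_le_mul_of_nonneg_left h1 (by positivity)
      have h3 : h * L * Real.log 2 * 560 ≤ h * L * Real.log 2 * L :=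
        mul_le_mul_of_nonneg_left hL560 (by positivity)
      have h4 := H.errG
      have h5 : 56 / 100 * h * L * ((L + 1) * Real.log 2) =
          56 / 100 * (h * L ^ 2 * Real.log 2) + 1 / 1000 * (h * L * Real.log 2 * 560) := by ring
      have h6 : h * L * Real.log 2 * L = h * L ^ 2 * Real.log 2 := by ring
      have h7 : 3 / 1000 * η * L ^ 2 * Real.log 2 = 3 / 1000 * (η * L ^ 2 * Real.log 2) := by ring
      have h8 : 567 / 1000 * h * L ^ 2 * Real.log 2 =
        567 / 1000 * (h * L ^ 2 * Real.log 2) := by ring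
      have h9 : 0 ≤ h * L ^ 2 * Real.log 2 := by positivity
      linarith
  -- typical members
  have hX : 16 * ((Lam P R).card : ℝ) ≤ M ^ 2 := by
    refine le_trans ?_ H.x0
    have h1 : (Lam P R).card ≤ q ^ 2 * (2 + 4 * Dl) :=
      (card_Lam_le P hP R).trans (Nat.mul_le_mul_right _ (Nat.pow_le_pow_left hRq 2))
    have h2 : ((Lam P R).card : ℝ) ≤ (q : ℝ) ^ 2 * (2 + 4 * Dl) := by exact_mod_cast h1
    linarith
  obtain ⟨C1, hC1C, hC12, hC1⟩ := typical H.M16 (le_of_eq H.MN.symm) C hC0 q hCq (Lam P R) eps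
    hBad (fun A => ((ed A).filter (fun e => Zone lv r (tau s e))).card) n0 hoff
    (C.filter (fun A => ((Ge lv s A).card : ℝ) < 56 / 100 * h * L))
    (Finset.filter_subset _ _) hG0 hX
  have hCpos : 0 < C.card := hC0.card_pos
  have hC1pos : 0 < C1.card := by omega
  have hC1ne : C1.Nonempty := Finset.card_pos.1 hC1pos
  -- the pointwise bound
  have hpt : ∀ A ∈ C1, ((Ge lv s A).card : ℝ) * Real.log N -
        ∑ k ∈ Finset.range r, gn s (Uk lv s M C k A) (Pairs lv s k A) ≤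
      Real.log 2 * (53 / 100 * h * L ^ 2) := by
    intro A hA
    have hAC := hC1C hA
    obtain ⟨h1, h2, h3, h4, h5⟩ := hC1 A hA
    have hz : (((ed A).filter (fun e => Zone lv r (tau s e))).card : ℝ) ≤
        16 * (q : ℝ) ^ 2 / n0 := by
      have hn0 : (0 : ℝ) < n0 := by exact_mod_cast (by linarith [H.n01] : 0 < n0)
      rw [le_div_iff₀ hn0, mul_comm]
      exact_mod_cast h5
    have hg : 56 / 100 * h * Real.logb 2 N ≤ ((Ge lv s A).card : ℝ) := by
      by_contra hcon2
      rw [not_le] at hcon2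
      exact h1 (Finset.mem_filter.2 ⟨hAC, hcon2⟩)
    have hrel : ∀ x y, (x, y) ∈ s.rel ↔ Bef s.ty x y ∧ Rch P R n x y := by
      intro x y
      rw [hs]
      unfold stG
      rw [Finset.mem_filter, and_iff_right (Finset.mem_univ _)]
    have hLam : ∀ x ∈ A, x ∈ Lam P R → x ∈ Vs lv s 0 := by
      intro x hx hxL
      have h6 := typ_le_two (r := r) hM1 C hC0 x (h3 x hx hxL)
      rw [← hty] at h6
      rw [mem_Vs]
      have h7 := hlvge 0
      have h8 := H.r2
      omega
    have hqL : (2 - h) * Real.logb 2 N ≤ q := by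
      refine le_trans ?_ H.qL
      exact mul_le_mul_of_nonneg_right (by linarith) (by linarith)
    have h6 := pointwise hh0 hh2 H.N2 (K := r) (n := n) P hP A R lv hlvm s rfl rfl hrel hLam
      (by have := hlvge r; omega) h2 (hCq A hAC) (hCu A hAC) hhu hqL H.qU (hCn A hAC).2.2.2
      M C h4 hz (hE A hAC) hg
    refine h6.trans (mul_le_mul_of_nonneg_left ?_ hlog2.le)
    have h7 := H.errP
    rw [← hL]
    have h8 : 3 / 100 * η * L ^ 2 = 3 / 100 * (η * L ^ 2) := by ring
    have h9 : 53 / 100 * h * L ^ 2 = 50 / 100 * h * L ^ 2 + 3 / 100 * (h * L ^ 2) := by ring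
    rw [h9]
    linarith
  -- the data are small
  have hres : ∀ k, restr lv k s ∈ Data N r (nd M r D0 q (lv k)) := by
    intro k
    refine restr_mem hOk hM1.le H.q1 (fun j hj => ?_) k _ (Nat.le_ceil _)
    exact card_typ_le hM1 C hC0 q hCq j hj
  have hDpos : ∀ k, 0 < (Data N r (nd M r D0 q (lv k))).card := fun k =>
    Finset.card_pos.2 ⟨_, hres k⟩
  have hg := gibbs hOk hN1 (b := br M lv (9 * n0)) (br_pos hM1.le lv (9 * n0)) hC1ne (q := q)
    (fun A hA => (hCq A (hC1C hA)).le) (K := r)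
    (fun A hA x hx => mem_Vs.2 (by
      have h6 := (hC1 A hA).2.1 x hx
      rw [← hty] at h6
      have h7 := hlvge r
      omega))
    (fun A hA => hCK A (hC1C hA)) (fun k A => Uk lv s M C k A)
    (fun k => 2 / M ^ (lv k + 4))
    (fun k _ A _ => Uk_subset lv s M C k A)
    (fun k _ => by positivity)
    (fun k _ e => theta hM1 C C1 hC1C hC12 hC0 lv s hty k e)
    (Λ := fun k => 4 * (Fintype.card (Fin n0) : ℝ) * (r : ℝ) *
      ((Data N r (nd M r D0 q (lv k))).card : ℝ))
    (fun k _ => by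
      have h1 : (0 : ℝ) < (Fintype.card (Fin n0) : ℝ) := by
        rw [Fintype.card_fin]
        exact_mod_cast (by linarith [H.n01] : 0 < n0)
      have h2 : (0 : ℝ) < (r : ℝ) := by exact_mod_cast (by linarith [H.r2] : 0 < r)
      have h3 : (0 : ℝ) < ((Data N r (nd M r D0 q (lv k))).card : ℝ) := by
        exact_mod_cast hDpos k
      positivity)
    (fun k hk => hobj s hmS ⟨i, hi⟩ (9 * n0) D0 Dl hOk k hk (hres k))
  -- the three terms
  have ht1 : av1 C1 (fun A => ((Ge lv s A).card : ℝ) * Real.log N -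
        ∑ k ∈ Finset.range r, gn s (Uk lv s M C k A) (Pairs lv s k A)) ≤
      Real.log 2 * (53 / 100 * h * L ^ 2) := av1_le hC1ne hpt
  have ht2 : Real.log ((Sub lv q s 0).card : ℝ) ≤ 1 / 1000 * η * L ^ 2 * Real.log 2 :=
    (log_Sub_le hM1 hi C hC0 q hCq s hty).trans H.errS
  have ht3 : ∑ k ∈ Finset.range r, (Real.log (4 * (Fintype.card (Fin n0) : ℝ) * (r : ℝ) *
      ((Data N r (nd M r D0 q (lv k))).card : ℝ)) / (mm (br M lv (9 * n0)) (k + 1) : ℝ) +
        ((r : ℝ) + 1) + (q : ℝ) * Real.log ((q : ℝ) * D0 + 1) +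
        (mm (br M lv (9 * n0)) (k + 1) : ℝ) *
          (2 / M ^ (lv k + 4) * ((Dl : ℝ) + 1) * (q : ℝ) ^ 2)) ≤
      1 / 100 * η * L ^ 2 * Real.log 2 := by
    refine le_trans ?_ H.errT
    have h1 : ∀ k ∈ Finset.range r, (Real.log (4 * (Fintype.card (Fin n0) : ℝ) * (r : ℝ) *
      ((Data N r (nd M r D0 q (lv k))).card : ℝ)) / (mm (br M lv (9 * n0)) (k + 1) : ℝ) +
        ((r : ℝ) + 1) + (q : ℝ) * Real.log ((q : ℝ) * D0 + 1) +
        (mm (br M lv (9 * n0)) (k + 1) : ℝ) *
          (2 / M ^ (lv k + 4) * ((Dl : ℝ) + 1) * (q : ℝ) ^ 2)) ≤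
        errK M N r n0 r D0 Dl q := by
      intro k hk
      rw [Fintype.card_fin]
      exact step_err hM1.le hN1 n0 r D0 Dl q H.n01 H.q1 lv (9 * n0) (lvo_step n0 i)
        (fun k => by have := hlvge k; omega) k (Finset.mem_range.1 hk) (hDpos k)
    refine (Finset.sum_le_sum h1).trans ?_
    rw [Finset.sum_const, Finset.card_range, nsmul_eq_mul]
  -- the contradiction
  have hlogC : Real.log (C.card : ℝ) ≤ Real.log 2 + Real.log (C1.card : ℝ) := by
    have h1 : (0 : ℝ) < (C1.card : ℝ) := by exact_mod_cast hC1pos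
    rw [← Real.log_mul (by norm_num) h1.ne']
    refine Real.log_le_log (by exact_mod_cast hCpos) ?_
    exact_mod_cast hC12
  have hbig := mul_le_mul_of_nonneg_right H.big hlog2.le
  have hkey : Real.log (C1.card : ℝ) ≤ Real.log 2 * (53 / 100 * h * L ^ 2) +
      1 / 1000 * η * L ^ 2 * Real.log 2 + 1 / 100 * η * L ^ 2 * Real.log 2 := by
    refine hg.trans ?_
    exact add_le_add (add_le_add ht1 ht2) ht3
  rw [one_mul] at hbig
  have hpos : 0 < h * L ^ 2 * Real.log 2 := by
    have : 0 < L := by linarith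
    positivity
  have e1 : Real.log 2 * (53 / 100 * h * L ^ 2) = 53 / 100 * (h * L ^ 2 * Real.log 2) := by ring
  have e2 : 1 / 1000 * η * L ^ 2 * Real.log 2 = 1 / 1000 * (η * L ^ 2 * Real.log 2) := by ring
  have e3 : 1 / 100 * η * L ^ 2 * Real.log 2 = 1 / 100 * (η * L ^ 2 * Real.log 2) := by ring
  have e4 : 567 / 1000 * h * L ^ 2 * Real.log 2 = 567 / 1000 * (h * L ^ 2 * Real.log 2) := by ring
  rw [e1, e2, e3] at hkey
  rw [e2] at hbig
  rw [e4] at hcon
  linarith

end C0mc
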