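import Pool.Agent.W_c0q2_h14.MN
import Pool.Agent.W_c0q2_h14.FR
import Pool.Agent.W_c0q2_h14.AS
import Pool.Agent.W_c0q2_h80.Sys

/-!
# MP_c0ce05_co, Q2 (proofs row 518), section 9: the range of many links

`macro_range`: for every `del > 0` there is a system of objects of mass `1/4` such that in every legal
position, for every `q` between `(2 - del/200) L` and `2 L` (which may depend on `N` only), the
number of the alive `q`-sets with exactly `u` unclaimed edges and exactly `D` links inside is at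
most `2 ^ (.575 D / 400)` whenever `D ≥ 2 del L²`, `u ≤ D / 400`.
-/

set_option autoImplicit false

namespace C0mc

open scoped Classical
open Filter C0lo C0st

/-- legal positions are legal for a larger in-degree -/
theorem Valid_mono {N : ℕ} {P : GP N} {Dl Dm : ℕ} (h : P.Valid Dl) (hle : Dl ≤ Dm) :
    P.Valid Dm :=
  { h with indeg := fun g => (h.indeg g).trans hle }

theorem macro_aux {η : ℝ} (h0 : 0 < η) (h1 : η ≤ 1 / 200) :
    ∀ᶠ N : ℕ in atTop, ∀ q : ℕ, (2 - η) * Real.logb 2 N ≤ q → (q : ℝ) ≤ 2 * Real.logb 2 N →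
      C0q2.Sys N (1 / 4) (fun P => ∀ Dl : ℕ, (Dl : ℝ) ≤ 10 * Real.logb 2 N ^ 2 → P.Valid Dl →
        ∀ D u : ℕ, 400 * η * Real.logb 2 N ^ 2 ≤ D → (u : ℝ) ≤ D / 400 →
          (((Finset.univ : Finset (Finset (Fin N))).filter (fun A => A.card = q ∧
            Disjoint (ed A) P.K ∧ (ed A \ P.C).card = u ∧
            (P.db.filter (fun d => d.1 ∈ ed A ∧ d.2 ∈ ed A)).card = D)).card : ℝ) ≤
            2 ^ (571 / 1000 * ((D : ℝ) / 400))) := by
  obtain ⟨r, n0, n, D1, T0, k0, np, p, eps, hev⟩ := exists_params h0 h1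
  filter_upwards [hev, L_tendsto.eventually_ge_atTop 1] with N hN hL1 q hqL hqU
  obtain ⟨hB, hF⟩ := hN q hqL hqU
  obtain ⟨ι, inst, Z, a, ha, hs, hmain⟩ := static_main hB
  refine ⟨ι, inst, Z, a, ha, hs, ?_⟩
  intro P hm Dl hDl hP D u hD hu
  have hDl' : Dl ≤ Df N := Nat.le_floor hDl
  have hV : P.Valid (Df N) := Valid_mono hP hDl'
  set L : ℝ := Real.logb 2 N with hL
  have hL2 : 0 < L ^ 2 := by positivity
  have hlog2 : 0 < Real.log 2 := Real.log_pos (by norm_num)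
  obtain ⟨F, hFd⟩ : ∃ F, F = (Finset.univ : Finset (Finset (Fin N))).filter (fun A =>
      A.card = q ∧ Disjoint (ed A) P.K ∧ (ed A \ P.C).card = u ∧
      (P.db.filter (fun d => d.1 ∈ ed A ∧ d.2 ∈ ed A)).card = D) := ⟨_, rfl⟩
  rw [← hFd]
  have hFm : ∀ A ∈ F, A.card = q ∧ Disjoint (ed A) P.K ∧ (ed A \ P.C).card = u ∧
      (P.db.filter (fun d => d.1 ∈ ed A ∧ d.2 ∈ ed A)).card = D := by
    intro A hA
    rw [hFd] at hA
    exact (Finset.mem_filter.1 hA).2
  have hpos : (0 : ℝ) < 2 ^ (571 / 1000 * ((D : ℝ) / 400)) :=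
    Real.rpow_pos_of_pos (by norm_num) _
  by_cases hne : F.Nonempty
  · obtain ⟨h, hhd⟩ : ∃ h : ℝ, h = (D : ℝ) / (400 * L ^ 2) := ⟨_, rfl⟩
    have hhL : h * L ^ 2 = (D : ℝ) / 400 := by
      rw [hhd]
      field_simp
    have hh1 : η ≤ h := by
      rw [hhd, le_div_iff₀ (by positivity)]
      linarith
    have hh2 : h ≤ 1 / 200 := by
      obtain ⟨A, hA⟩ := hne
      obtain ⟨hA1, hA2, hA3, hA4⟩ := hFm A hA
      have h2 : (P.db.filter (fun d => d.1 ∈ ed A ∧ d.2 ∈ ed A)).card ≤ (ed A).card := by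
        refine Finset.card_le_card_of_injOn (fun d => d.1) ?_ ?_
        · intro d hd
          exact (Finset.mem_filter.1 hd).2.1
        · intro d hd d' hd' hdd
          exact hP.fn d (Finset.mem_filter.1 hd).1 d' (Finset.mem_filter.1 hd').1 hdd
      rw [hA4, card_ed, hA1] at h2
      have h3 : (D : ℝ) ≤ ((q.choose 2 : ℕ) : ℝ) := by exact_mod_cast h2
      rw [Nat.cast_choose_two] at h3
      have hq0 : (0 : ℝ) ≤ q := Nat.cast_nonneg _
      have h4 : (q : ℝ) * ((q : ℝ) - 1) / 2 ≤ 2 * L ^ 2 := by nlinarith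
      rw [hhd, div_le_iff₀ (by positivity)]
      linarith
    obtain ⟨C, R, hCsub, hCne, hR, hexc, hbad, hlog⟩ := exists_family hF P hV F
      (fun A hA => (hFm A hA).1) hne
    have h2 := hmain P hV hm h u hh1 hh2 (by rw [hhL]; exact hu) C R
      (fun A hA => by
        obtain ⟨hA1, hA2, hA3, hA4⟩ := hFm A (hCsub hA)
        refine ⟨hA1, hA2, hA3.le, ?_⟩
        rw [hA4, hhL]
        linarith) hCne hR hexc hbad
    have hc : (0 : ℝ) < (F.card : ℝ) := by exact_mod_cast Finset.card_pos.2 hne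
    rw [← Real.log_le_log_iff hc hpos, Real.log_rpow (by norm_num)]
    have e1 : 4 / 1000 * η * L ^ 2 * Real.log 2 ≤ 4 / 1000 * (h * L ^ 2) * Real.log 2 := by
      refine mul_le_mul_of_nonneg_right ?_ hlog2.le
      have := mul_le_mul_of_nonneg_right hh1 hL2.le
      linarith
    calc Real.log (F.card : ℝ) ≤ Real.log (C.card : ℝ) + 4 / 1000 * η * L ^ 2 * Real.log 2 := hlog
      _ ≤ 567 / 1000 * h * L ^ 2 * Real.log 2 + 4 / 1000 * (h * L ^ 2) * Real.log 2 :=
          add_le_add h2 e1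
      _ = 571 / 1000 * (h * L ^ 2) * Real.log 2 := by ring
      _ = 571 / 1000 * ((D : ℝ) / 400) * Real.log 2 := by rw [hhL]
  · rw [Finset.not_nonempty_iff_eq_empty] at hne
    rw [hne, Finset.card_empty, Nat.cast_zero]
    exact hpos.le

end C0mc

namespace C0q2

open scoped Classical
open Filter C0lo C0st

/-- Section 9 of proofs row 518. -/
theorem macro_range {del : ℝ} (hdel : 0 < del) (qq : ℕ → ℕ)
    (hq1 : ∀ e : ℝ, 0 < e → ∀ᶠ N : ℕ in atTop, (2 - e) * Real.logb 2 N ≤ qq N)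
    (hq2 : ∀ᶠ N : ℕ in atTop, (qq N : ℝ) ≤ 2 * Real.logb 2 N) :
    ∀ᶠ N : ℕ in atTop, Sys N (1 / 4) (fun P => ∀ Dl : ℕ, (Dl : ℝ) ≤ 10 * Real.logb 2 N ^ 2 →
      P.Valid Dl → ∀ D u : ℕ, 2 * del * Real.logb 2 N ^ 2 ≤ D → (u : ℝ) ≤ D / 400 →
        (((Finset.univ : Finset (Finset (Fin N))).filter (fun A => A.card = qq N ∧
          Disjoint (ed A) P.K ∧ (ed A \ P.C).card = u ∧
          (P.db.filter (fun d => d.1 ∈ ed A ∧ d.2 ∈ ed A)).card = D)).card : ℝ) ≤
          2 ^ (571 / 1000 * ((D : ℝ) / 400))) := by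
  obtain ⟨η, hη⟩ : ∃ η : ℝ, η = min del 1 / 200 := ⟨_, rfl⟩
  have h0 : 0 < η := by
    rw [hη]
    have : 0 < min del 1 := lt_min hdel one_pos
    positivity
  have h1 : η ≤ 1 / 200 := by
    rw [hη]
    have : min del 1 ≤ 1 := min_le_right _ _
    linarith
  have h2 : 400 * η ≤ 2 * del := by
    rw [hη]
    have : min del 1 ≤ del := min_le_left _ _
    linarith
  filter_upwards [C0mc.macro_aux h0 h1, hq1 η h0, hq2] with N hN ha hb
  refine (hN (qq N) ha hb).mono le_rfl ?_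
  intro P hP Dl hDl hV D u hD hu
  refine hP Dl hDl hV D u (le_trans ?_ hD) hu
  exact mul_le_mul_of_nonneg_right h2 (by positivity)

end C0q2
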